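import Pool.Agent.Y560.TF.GeS

/-! # Project TF: positions of classes -/

set_option autoImplicit false
set_option linter.unusedSectionVars false

namespace Pool.Agent.Y108.TF.Pos

open Pool.Agent.Y560.TF.Ge

variable {Γ X : Type} [Group Γ] [PartialOrder X] [MulAction Γ X] [Tr Γ X] {u : X}

theorem b_of_le {a b : X} (hb : DD Γ u b) (h : RL Γ u a b) (hab : a ≤ b) : SL Γ u a b := by
  refine ⟨h, fun γ => ⟨fun h1 => ?_, fun h1 => hab.trans h1⟩⟩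
  by_contra h2
  obtain ⟨η, hη⟩ := hb
  obtain ⟨r, hr1, _, hr3⟩ := (h.d η γ).2 ⟨b, le_rfl, hη, h2⟩
  exact hr3 (hr1.trans h1)

theorem p1 (h3 : S_CUT) (a b : X) (ha : DD Γ u a) (hb : DD Γ u b) (h : RL Γ u a b) :
    SL Γ u a b ∧ (a ≤ b ∨ b ≤ a) := by
  have hc : a ≤ b ∨ b ≤ a := by
    rcases (h3 Γ X u a b h).1 with h1 | h1
    · exact Or.inl (h1 a le_rfl ha)
    · exact Or.inr (h1 b le_rfl hb)
  refine ⟨?_, hc⟩
  rcases hc with h1 | h1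
  · exact b_of_le hb h h1
  · exact (b_of_le ha h.symm h1).symm

theorem p2 (a : X) : ¬ LP Γ u a a := by
  rintro (⟨r, _, h1, h2⟩ | ⟨h1, h2, _⟩)
  · exact h2 h1
  · exact h2 h1

theorem p3 (h3 : S_CUT) (a b : X) (h : RL Γ u a b) (hab : LP Γ u a b) : ¬ LP Γ u b a := by
  rintro (⟨r', hr1', hr2', hr3'⟩ | ⟨h1', h2', h3', h4'⟩)
  · rcases hab with ⟨r, hr1, hr2, hr3⟩ | ⟨_, _, h5, _⟩
    · rcases (h3 Γ X u a b h).1 with h1 | h1
      · exact hr3' (h1 r' hr2' hr1')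
      · exact hr3 (h1 r hr2 hr1)
    · exact hr3' (hr2'.trans h5)
  · rcases hab with ⟨r, hr1, hr2, hr3⟩ | ⟨h5, _⟩
    · exact hr3 (hr2.trans h3')
    · exact h2' h5

theorem p4 (h3 : S_CUT) (a b c : X) (hbc : RL Γ u b c) (h1 : LP Γ u a b) (h2 : LP Γ u b c) :
    LP Γ u a c := by
  rcases h1 with ⟨r, hr1, hr2, hr3⟩ | ⟨ha, hb, hab, _⟩
  · rcases h2 with ⟨r', hr1', hr2', hr3'⟩ | ⟨_, _, hbc', _⟩
    · rcases (h3 Γ X u b c hbc).1 with h | h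
      · exact Or.inl ⟨r, hr1, h r hr2 hr1, hr3⟩
      · exact absurd (h r' hr2' hr1') hr3'
    · exact Or.inl ⟨r, hr1, hr2.trans hbc', hr3⟩
  · rcases h2 with ⟨r', hr1', hr2', hr3'⟩ | ⟨hb', _⟩
    · exact Or.inl ⟨r', hr1', hr2', fun h => hr3' (h.trans hab)⟩
    · exact absurd hb' hb

theorem p5 (a b c : X) (h : LP Γ u a c) : LP Γ u a b ∨ LP Γ u b c := by
  rcases h with ⟨r, hr1, hr2, hr3⟩ | ⟨ha, hc, hac, hP⟩
  · by_cases h : r ≤ b
    · exact Or.inl (Or.inl ⟨r, hr1, h, hr3⟩)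
    · exact Or.inr (Or.inl ⟨r, hr1, hr2, h⟩)
  · by_cases hab : a ≤ b
    · by_cases hr : ∃ r, DD Γ u r ∧ r ≤ b ∧ ¬ r ≤ a
      · exact Or.inl (Or.inl hr)
      · have hr' : ∀ r, DD Γ u r → r ≤ b → r ≤ a := by
          intro r h1 h2
          by_contra h3
          exact hr ⟨r, h1, h2, h3⟩
        by_cases hb : DD Γ u b
        · have : b = a := le_antisymm (hr' b hb le_rfl) hab
          subst this
          exact Or.inr (Or.inr ⟨ha, hc, hac, hP⟩)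
        · exact Or.inl (Or.inr ⟨ha, hb, hab, hr'⟩)
    · exact Or.inr (Or.inl ⟨a, ha, hac, hab⟩)

theorem p6 (γ : Γ) (a b : X) : LP Γ u (γ • a) (γ • b) ↔ LP Γ u a b := by
  have key : ∀ (γ : Γ) (a b : X), LP Γ u a b → LP Γ u (γ • a) (γ • b) := by
    intro γ a b h
    rcases h with ⟨r, hr1, hr2, hr3⟩ | ⟨ha, hb, hab, hP⟩
    · exact Or.inl ⟨γ • r, hr1.smul γ, sle.2 hr2, fun h => hr3 (sle.1 h)⟩
    · refine Or.inr ⟨ha.smul γ, fun h => hb (DD_smul.1 h), sle.2 hab, fun r hr h => ?_⟩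
      rw [sle_right] at h ⊢
      exact hP _ (hr.smul _) h
  refine ⟨fun h => ?_, key γ a b⟩
  have := key γ⁻¹ _ _ h
  rwa [inv_smul_smul, inv_smul_smul] at this

/-- Points separating two translates with the same label have this reduced label. -/
theorem rl_of_in {p q x : X} (h : SL Γ u p q) (hp : p ≤ x) (hq : ¬ q ≤ x) : RL Γ u p x := by
  refine ⟨fun γ => ⟨fun h1 => h1.trans hp, fun h1 => ?_⟩,
    fun γ => ⟨fun ⟨r, h1, h2⟩ => ⟨r, h1.trans hp, h2⟩, fun ⟨r, h1, h2⟩ => ?_⟩,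
    fun γ δ => ⟨fun ⟨r, h1, h2⟩ => ⟨r, h1.trans hp, h2⟩, fun ⟨r, h1, h2, h3⟩ => ?_⟩⟩
  · rcases cmp Γ h1 hp with h2 | h2
    · exact h2
    · exact absurd (((h.b γ).1 h2).trans h1) hq
  · rcases cmp Γ h1 hp with h3 | h3
    · exact ⟨r, h3, h2⟩
    · exact ⟨p, le_rfl, h3.trans h2⟩
  · rcases cmp Γ h1 hp with h4 | h4
    · exact ⟨r, h4, h2, h3⟩
    · by_cases h5 : p ≤ δ • u
      · exfalso
        have h6 := (h.b δ).1 h5
        have h7 := (h.b γ).1 (h4.trans h2)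
        rcases cmp Γ h7 h2 with h8 | h8
        · exact hq (h8.trans h1)
        · exact h3 (h8.trans h6)
      · exact ⟨p, le_rfl, h4.trans h2, h5⟩

/-- Two elements above an element outside `D` have the same reduced label. -/
theorem rl_of_out {r x y : X} (hx : r ≤ x) (hy : r ≤ y) (hr : ¬ DD Γ u r) : RL Γ u x y := by
  have key : ∀ {x y : X}, r ≤ x → r ≤ y → ∀ t, DD Γ u t → t ≤ x → t ≤ y := by
    intro x y hx hy t ht htx
    rcases cmp Γ htx hx with h | h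
    · exact h.trans hy
    · exact absurd (ht.le h) hr
  have hdu : ∀ γ : Γ, DD Γ u (γ • u) := fun γ => ⟨γ, le_rfl⟩
  refine ⟨fun γ => ⟨key hx hy _ (hdu γ), key hy hx _ (hdu γ)⟩,
    fun γ => ⟨fun ⟨t, h1, h2⟩ => ⟨t, key hx hy t ⟨γ, h2⟩ h1, h2⟩,
      fun ⟨t, h1, h2⟩ => ⟨t, key hy hx t ⟨γ, h2⟩ h1, h2⟩⟩,
    fun γ δ => ⟨fun ⟨t, h1, h2, h3⟩ => ⟨t, key hx hy t ⟨γ, h2⟩ h1, h2, h3⟩,
      fun ⟨t, h1, h2, h3⟩ => ⟨t, key hy hx t ⟨γ, h2⟩ h1, h2, h3⟩⟩⟩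

theorem p7 (h1 : S_EQV) (h2 : S_TYP) (h3 : S_CUT) (h4 : S_CC) (v a a' b : X)
    (ha : a ∈ OB Γ u v) (ha' : a' ∈ OB Γ u v) (hb : b ∉ OB Γ u v) (haa : RL Γ u a a')
    (hab : RL Γ u a b) :
    (LP Γ u a b ↔ LP Γ u a' b) ∧ (LP Γ u b a ↔ LP Γ u b a') := by
  obtain ⟨t1, t2, t3, _, _, t6⟩ := h2 Γ X u v
  by_cases hs : ∃ s, DD Γ u s ∧ IN Γ u s v
  · obtain ⟨s, hs, hsv⟩ := hs
    have hE := t1 s hs hsv
    rw [hE] at ha ha' hb
    obtain ⟨γ, δ, hpq, hpa, hqa⟩ := ha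
    obtain ⟨γ', δ', hpq', hpa', hqa'⟩ := ha'
    have hb' : ∀ γ δ : Γ, SL Γ u (γ • s) (δ • s) → γ • s ≤ b → δ • s ≤ b := by
      intro γ δ h5 h6
      by_contra h7
      exact hb ⟨γ, δ, h5, h6, h7⟩
    have r1 : RL Γ u (γ • s) a := rl_of_in hpq hpa hqa
    have r2 : RL Γ u (γ' • s) a' := rl_of_in hpq' hpa' hqa'
    have hpp : SL Γ u (γ • s) (γ' • s) :=
      (p1 h3 _ _ (hs.smul γ) (hs.smul γ') ((r1.trans haa).trans r2.symm)).1
    by_cases hpb : γ • s ≤ b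
    · have l1 : LP Γ u a b := Or.inl ⟨δ • s, hs.smul δ, hb' _ _ hpq hpb, hqa⟩
      have l2 : LP Γ u a' b :=
        Or.inl ⟨δ' • s, hs.smul δ', hb' _ _ (hpp.trans hpq') hpb, hqa'⟩
      have l3 := p3 h3 a b hab l1
      have l4 := p3 h3 a' b (haa.symm.trans hab) l2
      exact ⟨⟨fun _ => l2, fun _ => l1⟩, ⟨fun h => absurd h l3, fun h => absurd h l4⟩⟩
    · have hpb' : ¬ γ' • s ≤ b := fun h => hpb (hb' _ _ hpp.symm h)
      have l1 : LP Γ u b a := Or.inl ⟨γ • s, hs.smul γ, hpa, hpb⟩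
      have l2 : LP Γ u b a' := Or.inl ⟨γ' • s, hs.smul γ', hpa', hpb'⟩
      have l3 := p3 h3 b a hab.symm l1
      have l4 := p3 h3 b a' (hab.symm.trans haa) l2
      exact ⟨⟨fun h => absurd h l3, fun h => absurd h l4⟩, ⟨fun _ => l2, fun _ => l1⟩⟩
  · by_cases hv : DD Γ u v
    · rw [t2 hv hs] at ha ha'
      obtain ⟨γ, rfl⟩ := ha
      obtain ⟨γ', rfl⟩ := ha'
      have hsl := (p1 h3 _ _ (hv.smul γ) (hv.smul γ') haa).1
      have : γ • v = γ' • v := by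
        by_contra hne
        exact hs ⟨v, hv, t6 γ γ' v hv hsl hne⟩
      rw [this]
      exact ⟨Iff.rfl, Iff.rfl⟩
    · obtain ⟨_, e2, _⟩ := h1 Γ X
      have hoa := e2 u v a ha
      have hoa' := e2 u v a' ha'
      have hvv : v ∈ OB Γ u v := (h1 Γ X).1 u v
      have nd : ∀ x, x ∈ OB Γ u v → ¬ DD Γ u x := by
        intro x hx hd
        rw [t3 hv hs] at hx
        obtain ⟨γ, r, _, h6, h7⟩ := hx
        exact h7 (hd.le h6)
      have nda := nd a ha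
      have nda' := nd a' ha'
      have hsl : SL Γ u a a' :=
        ⟨haa, fun γ => ⟨fun h => absurd ⟨γ, h⟩ nda, fun h => absurd ⟨γ, h⟩ nda'⟩⟩
      have nos : ∀ x, x ∈ OB Γ u v → ¬ ∃ s, DD Γ u s ∧ IN Γ u s x := by
        rintro x hx ⟨s, hs1, hs2⟩
        have h6 := (h2 Γ X u x).1 s hs1 hs2
        rw [e2 u v x hx] at h6
        rw [h6] at hvv
        exact hs ⟨s, hs1, hvv⟩
      have hP : ∀ r, DD Γ u r → (r ≤ a ↔ r ≤ a') := by
        intro r hr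
        constructor
        · intro h
          by_contra h'
          exact nos a ha (h4 Γ X u a a' r (by rw [hoa]; exact ha') hsl hr h h')
        · intro h
          by_contra h'
          exact nos a' ha' (h4 Γ X u a' a r (by rw [hoa']; exact ha) hsl.symm hr h h')
      constructor
      · unfold LP
        refine or_congr (exists_congr fun r => and_congr_right fun hr =>
          and_congr_right fun _ => not_congr (hP r hr)) ?_
        constructor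
        · intro h; exact absurd h.1 nda
        · intro h; exact absurd h.1 nda'
      · unfold LP
        refine or_congr (exists_congr fun r => and_congr_right fun hr =>
          and_congr_left fun _ => hP r hr) ?_
        refine and_congr_right fun hb2 => ?_
        refine and_congr ⟨fun _ => nda', fun _ => nda⟩ ?_
        refine and_congr (hP b hb2) ?_
        refine forall_congr' fun r => ?_
        refine forall_congr' fun hr => ?_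
        rw [hP r hr]

theorem p8 (a b : X) (h : b ∈ OB Γ u a) : ∃ κ : Γ, RL Γ u (κ • a) b := by
  rcases h with ⟨γ, rfl⟩ | ⟨γ, r, h1, h2, h3⟩ | ⟨s, hs, h1, h2⟩
  · exact ⟨γ, RL.refl _ _⟩
  · exact ⟨γ, rl_of_out h1 h2 h3⟩
  · obtain ⟨γ, δ, hpq, hpa, hqa⟩ := h1
    obtain ⟨γ', δ', hpq', hpa', hqa'⟩ := h2
    have r1 : RL Γ u (γ • s) a := rl_of_in hpq hpa hqa
    have r2 : RL Γ u (γ' • s) b := rl_of_in hpq' hpa' hqa'
    refine ⟨γ' * γ⁻¹, ?_⟩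
    have r3 := r1.smul (γ' * γ⁻¹)
    rw [← mul_smul, inv_mul_cancel_right] at r3
    exact r3.symm.trans r2

theorem p9 (h1 : S_EQV) (a b : X) (hb : b ∉ OB Γ u a) :
    a < b ↔ DD Γ u a ∧ ((∃ γ : Γ, a ≤ γ • u ∧ γ • u ≤ b) ∨
    (∃ γ δ : Γ, a ≤ γ • u ∧ a ≤ δ • u ∧ ∃ r, r ≤ b ∧ r ≤ γ • u ∧ ¬ r ≤ δ • u) ∨
    (RL Γ u a b ∧ ¬ LP Γ u b a)) := by
  constructor
  · intro hab
    have ha : DD Γ u a := by
      by_contra h
      exact hb (Or.inr (Or.inl ⟨1, a, by rw [one_smul], hab.le, h⟩))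
    refine ⟨ha, ?_⟩
    by_cases f1 : ∃ γ : Γ, a ≤ γ • u ∧ γ • u ≤ b
    · exact Or.inl f1
    by_cases f2 : ∃ γ δ : Γ, a ≤ γ • u ∧ a ≤ δ • u ∧ ∃ r, r ≤ b ∧ r ≤ γ • u ∧ ¬ r ≤ δ • u
    · exact Or.inr (Or.inl f2)
    refine Or.inr (Or.inr ⟨?_, ?_⟩)
    · refine ⟨fun γ => ⟨fun h => h.trans hab.le, fun h => ?_⟩,
        fun γ => ⟨fun ⟨r, h1, h2⟩ => ⟨r, h1.trans hab.le, h2⟩, fun ⟨r, h1, h2⟩ => ?_⟩,
        fun γ δ => ⟨fun ⟨r, h1, h2⟩ => ⟨r, h1.trans hab.le, h2⟩, fun ⟨r, h1, h2, h3⟩ => ?_⟩⟩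
      · rcases cmp Γ h hab.le with h2 | h2
        · exact h2
        · exact absurd ⟨γ, h2, h⟩ f1
      · rcases cmp Γ h1 hab.le with h3 | h3
        · exact ⟨r, h3, h2⟩
        · exact ⟨a, le_rfl, h3.trans h2⟩
      · rcases cmp Γ h1 hab.le with h4 | h4
        · exact ⟨r, h4, h2, h3⟩
        · by_cases h5 : a ≤ δ • u
          · exact absurd ⟨γ, δ, h4.trans h2, h5, r, h1, h2, h3⟩ f2
          · exact ⟨a, le_rfl, h4.trans h2, h5⟩
    · rintro (⟨r, _, h2, h3⟩ | ⟨_, h3, _⟩)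
      · exact h3 (h2.trans hab.le)
      · exact h3 ha
  · rintro ⟨ha, h⟩
    have hle : a ≤ b := by
      rcases h with ⟨γ, h2, h3⟩ | ⟨γ, δ, h2, h3, r, h4, h5, h6⟩ | ⟨_, h3⟩
      · exact h2.trans h3
      · rcases cmp Γ h2 h5 with h7 | h7
        · exact h7.trans h4
        · exact absurd (h7.trans h3) h6
      · by_contra h4
        exact h3 (Or.inl ⟨a, ha, le_rfl, h4⟩)
    refine lt_of_le_of_ne hle ?_
    rintro rfl
    exact hb ((h1 Γ X).1 u a)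

theorem t_POS (h1 : S_EQV) (h2 : S_TYP) (h3 : S_CUT) (h4 : S_CC) : S_POS := by
  intro Γ X _ _ _ _ u
  refine ⟨p1 h3, p2, p3 h3, fun a b c _ hbc h5 h6 => p4 h3 a b c hbc h5 h6,
    fun a b c _ _ h => p5 a b c h, p6, p7 h1 h2 h3 h4, ?_, p9 h1⟩
  intro a b x hb
  obtain ⟨κ, hκ⟩ := p8 a b hb
  constructor
  · rintro ⟨γ, h⟩
    refine ⟨γ * κ⁻¹, ?_⟩
    have h5 := hκ.smul (γ * κ⁻¹)
    rw [← mul_smul, inv_mul_cancel_right] at h5
    exact h5.symm.trans h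
  · rintro ⟨γ, h⟩
    refine ⟨γ * κ, ?_⟩
    have h5 := hκ.smul γ
    rw [← mul_smul] at h5
    exact h5.trans h

end Pool.Agent.Y108.TF.Pos
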