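import Pool.Agent.Y560.TF.Stm

/-!
Project TF, job SUB: supersets of big classes are big.
-/

set_option autoImplicit false

namespace Pool.Agent.Y108.TF.Sub

open Set MeasureTheory
open Pool.Agent.H899R2.VP (St Adj PIso BF IsoOn idOn inv comp zipSet)
open Pool.Agent.H533R2.VO (RS lift put OS Ic RIso Dich VC BlkV S_FINAL)
open Pool.Agent.H566P (ar R2 v2 a0 a1 lt ac co mk S_ACC S_MSG)
open Pool.Agent.Y560.TG (acc msg lt_mk ac_mk co_mk R2_ext piso_iff riso_iff riso_isoOn meas_lt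
  meas_ac meas_co meas_into cont_into piso_lt piso_ac piso_co piso_eq ex lt_ex ac_ex co_ex_even
  co_ex_odd piso_ex orb orb_ex Nm Off Sm Thin Few bf_trans0 bf_symm0 iso_trans0 iso_symm0
  iso_refl0 S_EXT S_GL S_MAT S_BP mat pick Se)
open Pool.Agent.Y560.TF

/-- Smallness from a countable classification. -/
theorem sm_of_list {ι : Type} [Countable ι] [Nonempty ι] {β : Ordinal.{0}} {L : R2} {E : Set ℕ}
    (F : R2 → R2) (Pd : ι → R2 → Prop)
    (h1 : ∀ (N : R2) (Y : Set ℕ), BF (lift L) (lift N) E Y β ∅ →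
      ∃ V i, Pd i V ∧ IsoOn (lift N) (lift (F V)) Y E ∅)
    (h2 : ∀ i V V', Pd i V → Pd i V' → IsoOn (lift (F V')) (lift (F V)) E E ∅) : Sm β L E := by
  classical
  obtain ⟨e, he⟩ := exists_surjective_nat ι
  refine ⟨fun n => (if h : ∃ V, Pd (e n) V then F h.choose else L, E), fun N Y hN => ?_⟩
  obtain ⟨V, i, hV, hI⟩ := h1 N Y hN
  obtain ⟨n, rfl⟩ := he i
  refine ⟨n, ?_⟩
  have hex : ∃ V, Pd (e n) V := ⟨V, hV⟩
  show IsoOn (lift (if h : ∃ V, Pd (e n) V then F h.choose else L)) (lift N) E Y ∅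
  rw [dif_pos hex]
  exact iso_trans0 (h2 _ _ _ hV hex.choose_spec) (iso_symm0 hI)

theorem t_SUB (hE : S_EXT) (hT : S_TRQ) (hG : S_GEO) (hF : S_FILL) (hO : S_OFF) (hI : S_FILI) :
    S_SUB := by
  intro Γ _ g hg R y z u D β hR hβ hyz hu hD hSm
  have GR := hG Γ g hg R hR
  have hyE : y ∉ Ob R y z := fun h => hyz ((GR.out y z).1.1 h)
  have hEG : Ob R y z ⊆ Ob R u z := GR.tl y z u hu
  have hinvE : ∀ n x w, ac R n x w → (x ∈ Ob R y z ↔ w ∈ Ob R y z) := fun n x w h =>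
    GR.inv n y z x w h
  have huz : ¬ orb R u z := by
    rintro ⟨n, hn⟩
    exact hu ((hinvE n u z hn).2 (GR.self y z))
  obtain ⟨f, hf⟩ := hSm
  have hzE : z ∈ Ob R y z := GR.self y z
  have hzG : z ∈ Ob R u z := GR.self u z
  set E := Ob R y z with hEdef
  set G := Ob R u z with hGdef
  -- facts on a variation
  have facts : ∀ V : R2, Off E R V → BF (lift R) (lift V) univ univ β (idOn Eᶜ) →
      Ob V y z = E ∧ BF (lift (lb (Nm D R) u)) (lift (lb (Nm D V) u)) G G β ∅ := by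
    intro V hV hB
    obtain ⟨V1, V2, V3, -, V5, -⟩ := hO Γ g hg R V E hR hinvE hV (hB.mono hβ)
    refine ⟨V3 y z hyz rfl z hzE, ?_⟩
    have key := hE R V (lb (Nm D R) u) (lb (Nm D V) u) univ univ G G (idOn Eᶜ) ∅ 3
      (subset_univ _) (subset_univ _) ?_ β ?_
    · exact key.subset (empty_subset _)
    · intro q hq hb
      have hbp := hb.piso
      have e1 : ∀ a b, (a, b) ∈ q → a ∉ E → a = b := by
        intro a b hab ha
        exact (piso_eq hbp (hq ⟨rfl, ha⟩) hab).1 rfl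
      have e2 : ∀ a b, (a, b) ∈ q → b ∉ E → a = b := by
        intro a b hab hb'
        exact ((piso_eq hbp (hq ⟨rfl, hb'⟩) hab).2 rfl).symm
      have e3 : ∀ a b, (a, b) ∈ q → (a ∈ E ↔ b ∈ E) := by
        intro a b hab
        constructor
        · intro ha
          by_contra hb'
          exact hb' (e2 a b hab hb' ▸ ha)
        · intro hb'
          by_contra ha
          exact ha ((e1 a b hab ha).symm ▸ hb')
      constructor
      · rw [union_empty]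
        unfold lb Nm
        rw [piso_ex, piso_ex]
        refine ⟨⟨hbp.mono fun w hw => hw.1, ?_⟩, ?_⟩
        · rintro k ⟨a, b⟩ ⟨h1, h2⟩
          show (a = k ∧ a ∉ D) ↔ (b = k ∧ b ∉ D)
          by_cases ha : a ∈ E
          · have hb' := (e3 a b h1).1 ha
            exact ⟨fun h => absurd (hD ha) h.2, fun h => absurd (hD hb') h.2⟩
          · rw [e1 a b h1 ha]
        · rintro k ⟨a, b⟩ ⟨h1, h2⟩
          rw [Q_ex, Q_ex]
          exact hT.1 R V q u u a b k hb (hq ⟨rfl, hu⟩) h1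
      · rintro ⟨a, b⟩ h1
        show a ∈ G ↔ b ∈ G
        by_cases ha : a ∈ E
        · have hb' := (e3 a b h1).1 ha
          exact ⟨fun _ => hEG hb', fun _ => hEG ha⟩
        · rw [e1 a b h1 ha]
    · have h3 : (3 : Ordinal.{0}) + β = β := by
        have := Ordinal.natCast_add_of_omega0_le hβ 3
        exact_mod_cast this
      rw [h3]
      exact hB
  have hfill : ∀ (N : R2) (Y : Set ℕ), BF (lift (lb R y)) (lift N) E Y β ∅ →
      ∃ V, Off E R V ∧ BF (lift R) (lift V) univ univ β (idOn Eᶜ) ∧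
        IsoOn (lift N) (lift (lb V y)) Y E ∅ := by
    intro N Y hN
    obtain ⟨V, h1, h2, h3, -, h5⟩ := hF R N E Y (Q R y) β (GR.mod y z) hβ hN
    refine ⟨V, h1, h5, ?_⟩
    have hQ := hT.2.2.2.2.2.1 R V (idOn Eᶜ) y (h2.mono hβ) ⟨rfl, hyE⟩
    have hlb : ex (Q R y) V = lb V y := by
      unfold lb
      have : Q R y = Q V y := by
        funext m v
        exact propext (hQ m v).symm
      rw [this]
    rw [← hlb]
    exact h3
  have hOffG : ∀ V : R2, Off E R V → Off G R V := fun V h =>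
    ⟨fun a b hab => h.1 a b fun h' => hab ⟨hEG h'.1, hEG h'.2⟩,
      fun n a b hab => h.2.1 n a b fun h' => hab ⟨hEG h'.1, hEG h'.2⟩,
      fun n a ha => h.2.2 n a fun h' => ha (hEG h')⟩
  have hid : idOn Gᶜ ⊆ idOn Eᶜ := fun w hw => ⟨hw.1, fun h => hw.2 (hEG h)⟩
  refine sm_of_list (ι := ℕ × ℕ × ℕ) (fun V => lb V y)
    (fun i V => Off E R V ∧ BF (lift R) (lift V) univ univ β (idOn Eᶜ) ∧
      IsoOn (lift (f i.1).1) (lift (lb (Nm D V) u)) (f i.1).2 G
        ({w | w = (i.2.1, y) ∧ y ∈ G} ∪ {(i.2.2, z)})) ?_ ?_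
  · intro N Y hN
    obtain ⟨V, h1, h2, h3⟩ := hfill N Y hN
    obtain ⟨-, h4⟩ := facts V h1 h2
    obtain ⟨n, q, -, hq2, hq3, hq4, hq5⟩ := hf _ _ h4
    obtain ⟨a, ha⟩ : ∃ a, y ∈ G → (a, y) ∈ q := by
      by_cases hy : y ∈ G
      · obtain ⟨a, ha⟩ := hq5 y hy
        exact ⟨a, fun _ => ha⟩
      · exact ⟨0, fun h => absurd h hy⟩
    obtain ⟨b, hb⟩ := hq5 z hzG
    refine ⟨V, (n, a, b), ⟨h1, h2, q, ?_, hq2, hq3, hq4, hq5⟩, h3⟩
    rintro w (⟨rfl, hy⟩ | rfl)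
    · exact ha hy
    · exact hb
  · rintro ⟨n, a, b⟩ V V' ⟨h1, h2, h3⟩ ⟨h1', h2', h3'⟩
    obtain ⟨b4, -⟩ := facts V h1 h2
    obtain ⟨b4', -⟩ := facts V' h1' h2'
    obtain ⟨τ, t1, t2, t3, t4, t5⟩ := h3'.symm.trans h3
    have hy : y ∈ G → (y, y) ∈ τ := fun h => t1 ⟨a, Or.inl ⟨rfl, h⟩, Or.inl ⟨rfl, h⟩⟩
    have hz : (z, z) ∈ τ := t1 ⟨b, Or.inr rfl, Or.inr rfl⟩
    have t3' : PIso (lift (lb V' u)) (lift (lb V u)) τ := by
      unfold lb Nm at t3
      unfold lb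
      rw [piso_ex] at t3 ⊢
      refine ⟨(piso_ex.1 t3.1).1, fun k w hw => ?_⟩
      have := t3.2 k w hw
      rwa [Q_ex, Q_ex] at this
    have hiso := hI Γ g hg R V' V u z τ hR huz (hOffG V' h1') (hOffG V h1)
      ((h2'.mono hβ).subset hid) ((h2.mono hβ).subset hid) ⟨τ, Subset.rfl, t2, t3', t4, t5⟩
    have hyp : (y, y) ∈ τ ∪ idOn Gᶜ := by
      by_cases h : y ∈ G
      · exact Or.inl (hy h)
      · exact Or.inr ⟨rfl, h⟩
    have := hT.2.2.2.1 V' V _ y y z z hiso hyp (Or.inl hz)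
    rw [b4, b4'] at this
    exact this.mono (empty_subset _)

end Pool.Agent.Y108.TF.Sub
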