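import Pool.Agent.Y560.TF.Stm

/-! Project TF, job SHA: the structure as an ordered sum over a point. -/

set_option autoImplicit false
set_option linter.style.haveILetI false

namespace Pool.Agent.Y108.TF.Sha

open Set MeasureTheory
open Pool.Agent.H899R2.VP (St Adj PIso BF IsoOn idOn inv comp zipSet)
open Pool.Agent.H533R2.VO (RS lift put OS Ic RIso Dich VC BlkV S_FINAL)
open Pool.Agent.H566P (ar R2 v2 a0 a1 lt ac co mk S_ACC S_MSG)
open Pool.Agent.Y560.TG (acc msg lt_mk ac_mk co_mk R2_ext piso_iff riso_iff riso_isoOn meas_lt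
  meas_ac meas_co meas_into cont_into piso_lt piso_ac piso_co piso_eq ex lt_ex ac_ex co_ex_even
  co_ex_odd piso_ex orb orb_ex Nm Off Sm Thin Few bf_trans0 bf_symm0 iso_trans0 iso_symm0
  iso_refl0 S_EXT S_GL S_MAT S_BP mat pick Se)
open Pool.Agent.Y560.TF

/-- the same reduced label -/
def rl (Y : R2) (y a b : ℕ) : Prop := ∀ k, k % 4 ≠ 1 → (Q Y y k a ↔ Q Y y k b)

theorem rl_symm {Y : R2} {y a b : ℕ} (h : rl Y y a b) : rl Y y b a := fun k hk => (h k hk).symm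
theorem rl_trans {Y : R2} {y a b c : ℕ} (h : rl Y y a b) (h' : rl Y y b c) : rl Y y a c :=
  fun k hk => (h k hk).trans (h' k hk)

/-- the data: everything needed for the ordered sum -/
structure D (Λ : ℕ → ℕ → Prop) (Y : R2) (y : ℕ) (F ρ : ℕ → ℕ) : Prop where
  g1 : ∀ v, v ∈ Ob Y y v
  g2 : ∀ v x, x ∈ Ob Y y v → Ob Y y x = Ob Y y v
  g3 : ∀ n v x z, ac Y n x z → (x ∈ Ob Y y v ↔ z ∈ Ob Y y v)
  p3 : ∀ a b, rl Y y a b → lp Y y a b → ¬ lp Y y b a
  p4 : ∀ a b c, rl Y y a b → rl Y y b c → lp Y y a b → lp Y y b c → lp Y y a c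
  p5 : ∀ a b c, rl Y y a b → rl Y y b c → lp Y y a c → lp Y y a b ∨ lp Y y b c
  p7 : ∀ v a a' b, a ∈ Ob Y y v → a' ∈ Ob Y y v → b ∉ Ob Y y v → rl Y y a a' → rl Y y a b →
    (lp Y y a b ↔ lp Y y a' b) ∧ (lp Y y b a ↔ lp Y y b a')
  p9 : ∀ a b, b ∉ Ob Y y a → (lt Y a b ↔ (∃ k, Q Y y (4 * k + 1) a) ∧
    ((∃ k, Q Y y (4 * k + 1) a ∧ Q Y y (4 * k) b) ∨
      (∃ i j, Q Y y (4 * i + 1) a ∧ Q Y y (4 * j + 1) a ∧ Q Y y (4 * Nat.pair i j + 3) b) ∨
      (rl Y y a b ∧ ¬ lp Y y b a)))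
  fl : ∀ z i, fl Λ Y y z i ↔ i = F z
  Frl : ∀ x x', rl Y y x x' → F x = F x'
  FOb : ∀ x x', x ∈ Ob Y y x' → F x = F x'
  ρo : ∀ z, ∃ n, ac Y n z (ρ z)
  ρl : ∀ z m, m % 4 ≠ 1 → (Q Y y m (ρ z) ↔ Λ (F z) m)
  K : ∀ a b, b ∉ Ob Y y a → ∀ n m n' m' x x' z z', ac Y n a x → ac Y m b x' → rl Y y x x' →
    ac Y n' a z → ac Y m' b z' → rl Y y z z' → lp Y y x x' → lp Y y z z'
  one : ∃ n, ∀ x, ac Y n x x

section
variable {Λ : ℕ → ℕ → Prop} {Y : R2} {y : ℕ} {F ρ : ℕ → ℕ}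

theorem D.ρOb (h : D Λ Y y F ρ) (v z : ℕ) : ρ z ∈ Ob Y y v ↔ z ∈ Ob Y y v := by
  obtain ⟨n, hn⟩ := h.ρo z
  exact (h.g3 n v z _ hn).symm

theorem D.sym (h : D Λ Y y F ρ) {a b : ℕ} (hab : a ∈ Ob Y y b) : b ∈ Ob Y y a := by
  rw [h.g2 _ _ hab]; exact h.g1 b

theorem D.ρrl (h : D Λ Y y F ρ) {a b : ℕ} (e : F a = F b) : rl Y y (ρ a) (ρ b) := by
  intro m hm
  rw [h.ρl _ _ hm, h.ρl _ _ hm, e]

theorem D.bel_iff (h : D Λ Y y F ρ) (a b : ℕ) :
    bel Λ Y y a b ↔ F a < F b ∨ (F a = F b ∧ b ∉ Ob Y y a ∧ lp Y y (ρ a) (ρ b)) := by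
  unfold bel
  simp only [h.fl]
  constructor
  · rintro (⟨i, j, rfl, rfl, hlt⟩ | ⟨⟨i, rfl, hi⟩, hb, n, m, x, x', h1, h2, h3, h4⟩)
    · exact Or.inl hlt
    · right
      refine ⟨hi, hb, ?_⟩
      obtain ⟨n', hn'⟩ := h.ρo a
      obtain ⟨m', hm'⟩ := h.ρo b
      exact h.K a b hb n m n' m' x x' _ _ h1 h2 h3 hn' hm' (h.ρrl hi) h4
  · rintro (hlt | ⟨e, hb, hlt⟩)
    · exact Or.inl ⟨_, _, rfl, rfl, hlt⟩
    · right
      refine ⟨⟨F a, rfl, e⟩, hb, ?_⟩
      obtain ⟨n', hn'⟩ := h.ρo a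
      obtain ⟨m', hm'⟩ := h.ρo b
      exact ⟨n', m', _, _, hn', hm', h.ρrl e, hlt⟩

theorem adj (a b : ℕ) : Adj (sha Λ Y y) a b ↔ bel Λ Y y a b := by
  unfold Adj sha
  simp only [decide_eq_true_eq]

theorem D.inc (h : D Λ Y y F ρ) (a b : ℕ) (hb : b ∈ Ob Y y a) :
    ¬ bel Λ Y y a b ∧ ¬ bel Λ Y y b a := by
  rw [h.bel_iff, h.bel_iff]
  have e := h.FOb _ _ hb
  constructor
  · rintro (h1 | ⟨-, h2, -⟩)
    · omega
    · exact h2 hb
  · rintro (h1 | ⟨-, h2, -⟩)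
    · omega
    · exact h2 (h.sym hb)

theorem D.os (h : D Λ Y y F ρ) (h0 : ∀ n x z, ac Y n x z → z ∈ Ob Y y x) :
    OS (sha Λ Y y) := by
  constructor
  · intro x h1
    rw [adj, h.bel_iff] at h1
    rcases h1 with h1 | ⟨-, h2, -⟩
    · omega
    · exact h2 (h.g1 x)
  · intro a b c h1 h2
    rw [adj, h.bel_iff] at h1 h2 ⊢
    rcases h1 with h1 | ⟨e1, h1, h1'⟩
    · rcases h2 with h2 | ⟨e2, h2, h2'⟩
      · left; omega
      · left; omega
    · rcases h2 with h2 | ⟨e2, h2, h2'⟩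
      · left; omega
      · right
        refine ⟨e1.trans e2, fun h3 => ?_, h.p4 _ _ _ (h.ρrl e1) (h.ρrl e2) h1' h2'⟩
        have h4 := (h.p7 a (ρ a) (ρ c) (ρ b) ((h.ρOb _ _).2 (h.g1 a)) ((h.ρOb _ _).2 h3)
          (fun h5 => h1 ((h.ρOb _ _).1 h5)) (h.ρrl (e1.trans e2)) (h.ρrl e1)).1.1 h1'
        exact h.p3 _ _ (h.ρrl e2) h2' h4
  · intro a b c h1
    rw [adj, h.bel_iff] at h1
    rw [adj, adj, h.bel_iff, h.bel_iff]
    rcases h1 with h1 | ⟨e1, h1, h1'⟩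
    · by_cases h2 : F a < F b
      · exact Or.inl (Or.inl h2)
      · exact Or.inr (Or.inl (by omega))
    · by_cases h2 : F a < F b
      · exact Or.inl (Or.inl h2)
      by_cases h3 : F b < F c
      · exact Or.inr (Or.inl h3)
      have e2 : F a = F b := by omega
      have e3 : F b = F c := by omega
      rcases h.p5 _ (ρ b) _ (h.ρrl e2) (h.ρrl e3) h1' with h4 | h4
      · by_cases hb : b ∈ Ob Y y a
        · right; right
          have hc : c ∉ Ob Y y b := by rw [h.g2 _ _ hb]; exact h1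
          refine ⟨e3, hc, ?_⟩
          exact (h.p7 a (ρ a) (ρ b) (ρ c) ((h.ρOb _ _).2 (h.g1 a)) ((h.ρOb _ _).2 hb)
            (fun h5 => h1 ((h.ρOb _ _).1 h5)) (h.ρrl e2) (h.ρrl e1)).1.1 h1'
        · exact Or.inl (Or.inr ⟨e2, hb, h4⟩)
      · by_cases hc : c ∈ Ob Y y b
        · left; right
          have hb : b ∉ Ob Y y a := by
            intro h5
            apply h1
            rw [← h.g2 _ _ h5]
            exact hc
          refine ⟨e2, hb, ?_⟩
          exact (h.p7 b (ρ c) (ρ b) (ρ a) ((h.ρOb _ _).2 hc) ((h.ρOb _ _).2 (h.g1 b))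
            (fun h5 => hb (h.sym ((h.ρOb _ _).1 h5))) (h.ρrl e3.symm)
            (h.ρrl e1.symm)).2.1 h1'
        · exact Or.inr (Or.inr ⟨e3, hc, h4⟩)
  · intro i v hv j k
    rw [adj]
    have h0' : ∀ n a b, (if n = 0 then b ∈ Ob Y y a else ac Y (n - 1) a b) → b ∈ Ob Y y a := by
      intro n a b
      by_cases hn : n = 0
      · rw [if_pos hn]; exact id
      · rw [if_neg hn]; exact h0 _ _ _
    have key : ∀ j, v j ∈ Ob Y y (a0 v) := by
      unfold sha at hv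
      simp only at hv
      unfold Pool.Agent.H566P.mk at hv
      simp only [decide_eq_true_eq] at hv
      intro j
      by_cases hi : i = 0 ∨ i % 2 = 1
      · have har : ar i = 2 := by unfold ar; rw [if_pos hi]
        have hsim : a1 v ∈ Ob Y y (a0 v) := by
          rcases hi with hi | hi
          · rw [if_pos hi] at hv
            exact hv.2
          · rw [if_neg (by omega), if_pos hi] at hv
            exact h0' _ _ _ hv
        by_cases hj : j.1 = 0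
        · have : v j = a0 v := by
            unfold a0
            rw [dif_pos (by omega)]
            congr 1
            exact Fin.ext hj
          rw [this]
          exact h.g1 _
        · have : v j = a1 v := by
            unfold a1
            have hjlt := j.2
            rw [dif_pos (by omega)]
            congr 1
            exact Fin.ext (by simp only; omega)
          rw [this]
          exact hsim
      · have har : ar i = 1 := by unfold ar; rw [if_neg hi]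
        have : v j = a0 v := by
          unfold a0
          have hjlt := j.2
          rw [dif_pos (by omega)]
          congr 1
          exact Fin.ext (by simp only; omega)
        rw [this]
        exact h.g1 _
    have h2 : v k ∈ Ob Y y (v j) := by
      rw [h.g2 _ _ (key j)]; exact key k
    exact (h.inc _ _ h2).1

theorem sha_lt (a b : ℕ) : lt (sha Λ Y y).2 a b ↔ lt Y a b ∧ b ∈ Ob Y y a :=
  lt_mk (fun a b => lt Y a b ∧ b ∈ Ob Y y a)
    (fun n a b => if n = 0 then b ∈ Ob Y y a else ac Y (n - 1) a b) (co (lb Y y)) a b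
theorem sha_ac (n a b : ℕ) : ac (sha Λ Y y).2 n a b ↔
    if n = 0 then b ∈ Ob Y y a else ac Y (n - 1) a b :=
  ac_mk (fun a b => lt Y a b ∧ b ∈ Ob Y y a)
    (fun n a b => if n = 0 then b ∈ Ob Y y a else ac Y (n - 1) a b) (co (lb Y y)) n a b
theorem sha_co (n a : ℕ) : co (sha Λ Y y).2 n a ↔ co (lb Y y) n a :=
  co_mk (fun a b => lt Y a b ∧ b ∈ Ob Y y a)
    (fun n a b => if n = 0 then b ∈ Ob Y y a else ac Y (n - 1) a b) (co (lb Y y)) n a

theorem D.flat (h : D Λ Y y F ρ) : fla (sha Λ Y y) = Y := by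
  apply R2_ext
  · intro a b
    unfold fla
    rw [lt_mk, sha_lt]
    have e2 : (sha Λ Y y).1 b a = false ↔ ¬ bel Λ Y y b a := by
      rw [← adj]
      unfold Adj
      simp
    have e0 : ac (sha Λ Y y).2 0 a b ↔ b ∈ Ob Y y a := by
      rw [sha_ac, if_pos rfl]
    have e5 : ∀ k z, co (sha Λ Y y).2 (2 * k + 1) z ↔ Q Y y k z := by
      intro k z
      rw [sha_co, lb, co_ex_odd]
    simp only [e5, e2, e0]
    by_cases hb : b ∈ Ob Y y a
    · simp only [hb, not_true_eq_false, false_and, or_false, and_true]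
    · simp only [hb, and_false, false_or, not_false_eq_true, true_and]
      rw [h.p9 a b hb]
      refine and_congr_right fun _ => or_congr Iff.rfl (or_congr Iff.rfl ?_)
      refine and_congr_right fun hr => not_congr ?_
      have hr' : rl Y y a b := hr
      have e : F a = F b := h.Frl _ _ hr'
      rw [h.bel_iff]
      obtain ⟨n, hn⟩ := h.one
      obtain ⟨n', hn'⟩ := h.ρo a
      obtain ⟨m', hm'⟩ := h.ρo b
      have ha : a ∉ Ob Y y b := fun h1 => hb (h.sym h1)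
      constructor
      · rintro (h1 | ⟨-, -, h1⟩)
        · omega
        · exact h.K b a ha _ _ _ _ _ _ _ _ hm' hn' (h.ρrl e.symm) (hn b) (hn a) (rl_symm hr') h1
      · intro h1
        exact Or.inr ⟨e.symm, ha, h.K b a ha _ _ _ _ _ _ _ _ (hn b) (hn a) (rl_symm hr') hm' hn'
          (h.ρrl e.symm) h1⟩
  · intro n a b
    unfold fla
    rw [ac_mk, sha_ac, if_neg (Nat.succ_ne_zero n), Nat.add_sub_cancel]
  · intro n a
    unfold fla
    rw [co_mk, sha_co, lb, co_ex_even]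

end

theorem lp_iff {Γ : Type} [Group Γ] {g : ℕ → Γ} (hg : Function.Surjective g) {Y : R2}
    {t : Γ → ℕ → ℕ} (h : TA g Y t) (y a b : ℕ) :
    lp Y y a b ↔ @Ge.LP Γ (Pt Y t) _ h.po h.ma y a b := by
  letI := h.po
  letI := h.ma
  unfold Pool.Agent.Y560.TF.lp Ge.LP
  simp only [Du_iff hg h]
  exact Iff.rfl

theorem t_SHA (hP : Ge.S_POS) (hG : S_GEO) : S_SHA := by
  intro Γ _ g hg Λ Y y hY hΛ
  have GR := hG Γ g hg Y hY
  obtain ⟨t, h⟩ := hY
  obtain ⟨P1, P2, P3, P4, P5, P6, P7, P8, P9⟩ := @hP Γ (Pt Y t) _ h.po h.ma h.tr' y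
  have hrl : ∀ a b, rl Y y a b ↔ @Ge.RL Γ (Pt Y t) _ h.po h.ma y a b := fun a b =>
    rl_iff hg h
  have hlp := lp_iff hg h y
  have hOb : ∀ v x, x ∈ Ob Y y v ↔ (x : Pt Y t) ∈ @Ge.OB Γ (Pt Y t) _ h.po h.ma y v :=
    fun v x => Ob_iff hg h
  have orbOb : ∀ n x z, ac Y n x z → z ∈ Ob Y y x := fun n x z h1 =>
    (GR.inv n y x x z h1).1 (GR.self y x)
  -- the classes of reduced labels
  have rlact : ∀ γ a b, rl Y y a b → rl Y y (t γ a) (t γ b) := by
    intro γ a b hab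
    rw [hrl] at hab ⊢
    exact @Ge.RL.smul Γ (Pt Y t) _ h.po h.ma h.tr' y a b γ hab
  have lpact : ∀ γ a b, lp Y y (t γ a) (t γ b) ↔ lp Y y a b := by
    intro γ a b
    rw [hlp, hlp]
    exact P6 γ a b
  have lc_iff : ∀ z i, lc Λ Y y z i ↔ ∃ γ, ∀ m, m % 4 ≠ 1 → (Q Y y m (t γ z) ↔ Λ i m) := by
    intro z i
    constructor
    · rintro ⟨n, z', h1, h2⟩
      rw [h.act] at h1
      subst h1
      exact ⟨g n, h2⟩
    · rintro ⟨γ, h2⟩
      obtain ⟨n, rfl⟩ := hg γ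
      exact ⟨n, _, (h.act _ _ _).2 rfl, h2⟩
  have lcrl : ∀ x x' i, (∃ γ, rl Y y (t γ x) x') → lc Λ Y y x' i → lc Λ Y y x i := by
    rintro x x' i ⟨γ, hs⟩ h1
    rw [lc_iff] at h1 ⊢
    obtain ⟨δ, h2⟩ := h1
    refine ⟨δ * γ, fun m hm => ?_⟩
    rw [h.mul, ← h2 m hm]
    exact rlact δ _ _ hs m hm
  have hex : ∀ z, ∃ i, lc Λ Y y z i := by
    intro z
    obtain ⟨i, hi⟩ := hΛ z
    refine ⟨i, (lc_iff _ _).2 ⟨1, fun m _ => ?_⟩⟩
    rw [h.one]
    exact hi m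
  classical
  set F : ℕ → ℕ := fun z => Nat.find (hex z) with hF
  have hFl : ∀ z, lc Λ Y y z (F z) := fun z => Nat.find_spec (hex z)
  have hFm : ∀ z j, j < F z → ¬ lc Λ Y y z j := fun z j hj => Nat.find_min (hex z) hj
  have hfl : ∀ z i, fl Λ Y y z i ↔ i = F z := by
    intro z i
    constructor
    · rintro ⟨h1, h2⟩
      rcases lt_trichotomy i (F z) with h3 | h3 | h3
      · exact absurd h1 (hFm z i h3)
      · exact h3
      · exact absurd (hFl z) (h2 _ h3)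
    · rintro rfl
      exact ⟨hFl z, hFm z⟩
  have hFeq : ∀ x x', (∃ γ, rl Y y (t γ x) x') → F x = F x' := by
    intro x x' hγ
    have h1 : ∀ i, lc Λ Y y x' i → lc Λ Y y x i := fun i => lcrl x x' i hγ
    have h2 : ∀ i, lc Λ Y y x i → lc Λ Y y x' i := by
      intro i
      obtain ⟨γ, hγ⟩ := hγ
      refine lcrl x' x i ⟨γ⁻¹, rl_symm ?_⟩
      have := rlact γ⁻¹ _ _ hγ
      rwa [h.inv_t] at this
    rcases lt_trichotomy (F x) (F x') with h3 | h3 | h3
    · exact absurd (h2 _ (hFl x)) (hFm _ _ h3)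
    · exact h3
    · exact absurd (h1 _ (hFl x')) (hFm _ _ h3)
  choose ρn ρ hρ1 hρ2 using hFl
  have p7 : ∀ v a a' b, a ∈ Ob Y y v → a' ∈ Ob Y y v → b ∉ Ob Y y v → rl Y y a a' →
      rl Y y a b → (lp Y y a b ↔ lp Y y a' b) ∧ (lp Y y b a ↔ lp Y y b a') := by
    intro v a a' b h1 h2 h3 h4 h5
    rw [hlp, hlp, hlp, hlp]
    exact P7 v a a' b ((hOb _ _).1 h1) ((hOb _ _).1 h2) (fun h6 => h3 ((hOb _ _).2 h6))
      ((hrl _ _).1 h4) ((hrl _ _).1 h5)
  have hD : D Λ Y y F ρ := by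
    refine ⟨GR.self y, GR.eqv y, fun n v x z h1 => GR.inv n y v x z h1, ?_, ?_, ?_, p7, ?_, hfl,
      ?_, ?_, fun z => ⟨ρn z, hρ1 z⟩, fun z m hm => hρ2 z m hm, ?_, ?_⟩
    · intro a b h1 h2
      rw [hlp] at h2 ⊢
      exact P3 a b ((hrl _ _).1 h1) h2
    · intro a b c h1 h2 h3 h4
      rw [hlp] at h3 h4 ⊢
      exact P4 a b c ((hrl _ _).1 h1) ((hrl _ _).1 h2) h3 h4
    · intro a b c h1 h2 h3
      rw [hlp] at h3
      rw [hlp, hlp]
      exact P5 a b c ((hrl _ _).1 h1) ((hrl _ _).1 h2) h3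
    · intro a b hb
      have h9 := P9 a b (fun h6 => hb ((hOb _ _).2 h6))
      refine Iff.trans h9 (and_congr ?_ (or_congr ?_ (or_congr ?_ ?_)))
      · constructor
        · rintro ⟨γ, h1⟩
          obtain ⟨k, rfl⟩ := hg γ
          exact ⟨k, (Q1_iff h).2 h1⟩
        · rintro ⟨k, h1⟩
          exact ⟨g k, (Q1_iff h).1 h1⟩
      · constructor
        · rintro ⟨γ, h1, h2⟩
          obtain ⟨k, rfl⟩ := hg γ
          exact ⟨k, (Q1_iff h).2 h1, (Q0_iff h).2 h2⟩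
        · rintro ⟨k, h1, h2⟩
          exact ⟨g k, (Q1_iff h).1 h1, (Q0_iff h).1 h2⟩
      · constructor
        · rintro ⟨γ, δ, h1, h2, h3⟩
          obtain ⟨i, rfl⟩ := hg γ
          obtain ⟨j, rfl⟩ := hg δ
          exact ⟨i, j, (Q1_iff h).2 h1, (Q1_iff h).2 h2, (Q3_iff h).2 h3⟩
        · rintro ⟨i, j, h1, h2, h3⟩
          exact ⟨g i, g j, (Q1_iff h).1 h1, (Q1_iff h).1 h2, (Q3_iff h).1 h3⟩
      · rw [hrl, hlp]
    · intro x x' hs
      exact hFeq x x' ⟨1, by rw [h.one]; exact hs⟩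
    · intro x x' hx
      have h8 := P8 x' x x' ((hOb _ _).1 hx)
      have h9 : ∃ γ : Γ, rl Y y (t γ x) x' := by
        obtain ⟨γ, hγ⟩ := h8.1 ⟨1, (hrl _ _).1 (by
          change rl Y y (t 1 x') x'
          rw [h.one]
          exact fun _ _ => Iff.rfl)⟩
        exact ⟨γ, (hrl _ _).2 hγ⟩
      exact hFeq x x' h9
    · intro a b hb n m n' m' x x' x1 x1' h1 h2 hs h3 h4 hs' hlt
      rw [h.act] at h1 h2 h3 h4
      have oa : ∀ γ, t γ a ∈ Ob Y y a := by
        intro γ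
        obtain ⟨k, rfl⟩ := hg γ
        exact orbOb k a _ ((h.act _ _ _).2 rfl)
      have ob : ∀ γ, t γ b ∈ Ob Y y b := by
        intro γ
        obtain ⟨k, rfl⟩ := hg γ
        exact orbOb k b _ ((h.act _ _ _).2 rfl)
      -- `e x1 = x`
      set e : Γ := g n * (g n')⁻¹ with he
      have e1 : t e x1 = x := by
        rw [he, h.mul, ← h3, h.inv_t, h1]
      have r1 : rl Y y x (t e x1') := by
        rw [← e1]; exact rlact e _ _ hs'
      have r2 : rl Y y x' (t e x1') := rl_trans (rl_symm hs) r1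
      have o1 : t e x1' ∈ Ob Y y b := by
        rw [← h4, ← h.mul]; exact ob _
      have o2 : x' ∈ Ob Y y b := by rw [← h2]; exact ob _
      have o3 : x ∉ Ob Y y b := by
        intro h5
        rw [← h1] at h5
        have h6 : a ∈ Ob Y y b := (GR.inv n y b a _ ((h.act _ _ _).2 rfl)).2 h5
        apply hb
        rw [GR.eqv y b a h6]
        exact GR.self y b
      have h7 := (p7 b x' (t e x1') x o2 o1 o3 r2 (rl_symm hs)).2.1 hlt
      rw [← e1, lpact] at h7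
      exact h7
    · obtain ⟨k, hk⟩ := hg 1
      exact ⟨k, fun x => by rw [h.act, hk, h.one]⟩
  exact ⟨hD.os orbOb, hD.flat⟩

end Pool.Agent.Y108.TF.Sha
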